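import Pool.Agent.P.MP_29b816_gt.T.Defs

/-! The combinatorial facts that the certificate checker uses. -/

namespace HP15

open Finset

/-- The set of vertices with the code `l` (only the lowest 15 bits matter). -/
def dec (l : ℕ) : Finset (Fin 15) := univ.filter fun i => l.testBit i

open Classical in
/-- The number of vertices in the link of `s`. -/
noncomputable def lkc (K : Set (Finset (Fin 15))) (s : Finset (Fin 15)) : ℕ :=
  (univ.filter fun v => v ∉ s ∧ insert v s ∈ K).card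

/-- The local rules. `m` is the least size of the link of a 5-set; `noa` switches on the rule that
six-vertex links of 5-sets have all edges. -/
structure Good (m : ℕ) (noa : Bool) (K : Set (Finset (Fin 15))) : Prop where
  compl : ∀ W, W ∈ K ↔ Wᶜ ∉ K
  down : ∀ s ∈ K, ∀ t, t ⊆ s → t ∈ K
  dim : ∀ s ∈ K, s.card ≤ 9
  lk8 : ∀ s ∈ K, s.card = 8 → lkc K s = 2
  lk7 : ∀ s ∈ K, s.card = 7 → 3 ≤ lkc K s
  lk6 : ∀ s ∈ K, s.card = 6 → 4 ≤ lkc K s
  lk5 : ∀ s ∈ K, s.card = 5 → m ≤ lkc K s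
  cyc : ∀ φ : Finset (Fin 15), φ.Nonempty → ∀ z : Finset (Fin 15) → ZMod 2, z ≠ 0 →
    (∀ f, z f ≠ 0 → f ∈ K ∧ f.card = 9 ∧ φ ⊆ f) → (∀ r, φ ⊆ r → bd z r = 0) →
    ∀ g ∈ K, g.card = 9 → φ ⊆ g → z g ≠ 0
  noa1 : noa = true → ∀ s, s.card = 5 → lkc K s ≤ 6 → ∀ u w, insert u s ∈ K → insert w s ∈ K →
    insert u (insert w s) ∈ K

/-- The sets with the listed codes cannot all be non-faces. -/
def Refuted (m : ℕ) (noa : Bool) (c : List ℕ) : Prop :=
  ∀ K, Good m noa K → ¬ ∀ l ∈ c, dec l ∉ K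

end HP15
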